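import Pool.Agent.Helper84.AP.Gap
import Pool.Agent.Helper84.AP.Main
import Pool.Agent.Helper84.AP.Low
import Pool.Agent.TH924.PC.Eig

set_option autoImplicit false

/-!
# Accessory parameters with few bad primes are very sparse, if an exponent has a large denominator

Let `L_q = L_0 + q L_1 + ⋯ + q^(d-1) L_(d-1) + q^d r(x)`, where the `L_k` are differential operators of
order at most `n` with coefficients in `ℤ[x]`, for which `0` is a regular singular point with an indicial
polynomial independent of `q`, `r(0) ≠ 0`, and two exponents at `0` differ by a rational number `u / N`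
with the denominator `N ≥ 2`. For `d = 1` this is an operator with an accessory parameter, for example
Heun's operator `x (x - 1) (x - t) ∂² + (γ (x - 1) (x - t) + δ x (x - t) + ε x (x - 1)) ∂ + α β x - q`
(multiplied by the denominators) with the exponent difference `1 - γ` at `0`; nothing is assumed on the
other singular points or on the sum of the orders. We count the integers `q` for which the reductions of
`L_q` have a full basis of rational solutions for almost all primes, or for all primes up to a small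
power of the size of `q` with few exceptions. By the starting result `AccessoryParameterSieve` their
number up to `X` is `O(X^θ)` for `θ > d / n`, if `d < n`. Here it is shown that it is `O(X^θ)` for all
`θ > 1 / A`, where `A` is the average over the `v` modulo `N`, prime to `N`, of
`max (1, n / d, N / (d min (v, N - v)))`, and that `A ≥ (2 / d) log (N / 2)`. **So for fixed `n` and `d` (where
`d ≥ n` is allowed) and a denominator `N` tending to infinity the exponents tend to zero: for
`N > 2 exp (d / (2 ε))` the number of the exceptional parameters up to `X` is `O(X^ε)`**, uniformly in all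
such families.

* If the reduction of `L_q` modulo `p` has a full basis, then all roots modulo `p` of the indicial
  polynomial are orders at `0` of polynomial solutions, as the orders of a space of dimension `n` over
  the constants lie in `n` classes. If `e` and `e + k` are two neighbouring roots modulo `p`, then the
  coefficients of a solution beginning with `x^e` are polynomials in `q` of degrees `d, 2 d, 3 d, …`, and
  there is a condition for the solution at `x^(e + k)`: a polynomial in `q` of degree exactly `d k`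
  vanishes. So at most `d k` classes `q` modulo `p` give a full basis. Here `k` is at most the difference
  of the two exponents modulo `p`, `(u + j p) / N` with `j = -u / p` modulo `N`, or its complement.
* The larger sieve is applied with weights depending on the residue class of `p` modulo `N`, and
  Mertens' theorem in arithmetic progressions.
-/

namespace Pool.Agent.Results.MP_aa40d3_nt.AccessoryParametersResonance

open Polynomial Finset Pool.Agent.Helper84.AP

/-- `p` is a prime and the reduction modulo `p` of `∑ b i ∂^i` has a full basis of rational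
solutions: `n` solutions in `F_p(x)` that are linearly independent over the constants. This is the
condition on `p` in the problem. -/
def Full (n : ℕ) (b : Fin (n + 1) → ℤ[X]) (p : ℕ) : Prop :=
  ∃ _ : Fact p.Prime, ∃ D : Derivation ℤ (RatFunc (ZMod p)) (RatFunc (ZMod p)),
    D (RatFunc.X : RatFunc (ZMod p)) = 1 ∧
    ∃ y : Fin n → RatFunc (ZMod p),
      (∀ j : Fin n, ∑ i : Fin (n + 1),
          Polynomial.aeval (RatFunc.X : RatFunc (ZMod p)) (b i) * (⇑D)^[(i : ℕ)] (y j) = 0) ∧
      ∀ c : Fin n → RatFunc (ZMod p), (∀ j, D (c j) = 0) →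
        ∑ j : Fin n, c j * y j = 0 → ∀ j, c j = 0

/-- The coefficients of `L_q = ∑_{k < d} q^k L_k + q^d r`, where `L_k = ∑ b k i ∂^i`. -/
noncomputable def family {n d : ℕ} (b : Fin d → Fin (n + 1) → ℤ[X]) (r : ℤ[X]) (q : ℤ) :
    Fin (n + 1) → ℤ[X] :=
  fun i => (∑ k : Fin d, C (q ^ (k : ℕ)) * b k i) + if i = 0 then C (q ^ d) * r else 0

open Classical in
/-- The sum of `log p / p` over the primes `p ≤ Y` for which the reduction of `∑ b i ∂^i` does not
have a full basis of rational solutions. -/
noncomputable def badSum (n : ℕ) (b : Fin (n + 1) → ℤ[X]) (Y : ℝ) : ℝ :=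
  ∑ p ∈ Icc 1 ⌊Y⌋₊ with p.Prime ∧ ¬ Full n b p, Real.log p / p

/-- Let `n, d ≥ 1`, `N ≥ 2`, `u` prime to `N`, let `A` be the average `avgWeight n d N` over the `v < N`
prime to `N` of `max (1, n / d, N / (d min (v, N - v)))` and `B = max (1, n / d, N / d)`. Then
`A ≥ (2 / d) log (N / 2)`. Let `θ > 0`, `η ≥ 0`, `B η < A θ` and `A θ < (A θ - B η)²` (for `η = 0` this
says `θ > 1 / A`), let `K` be a real and `N₀` a natural number. Then there is a constant `C` such that
the following holds for all operators `L_0, …, L_(d-1)` of order at most `n` with coefficients `b k i` in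
`ℤ[x]` and all `r` in `ℤ[x]`. Let `x b_(k, i)` be divisible by `x ^ i` with the quotient `a_(k, i)`
(so `x L_q` has a regular singularity or a regular point at `0`), let `a_(k, i)(0) = 0` for `k > 0`, let
`s` and `s'` be rational roots of the indicial polynomial
`∑ a_(0, i)(0) s (s - 1) ⋯ (s - i + 1)` with `s - s' = u / N`, and assume that the numbers `r(0)`,
`a_(0, n)(0)` and the denominator of `s` are not divisible by any prime `p > N₀` (in particular they are
not zero). Then for all `Y ≥ 2` at most `C Y^θ` integers `q` with `|q| ≤ Y` satisfy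
`∑ log p / p ≤ η log Y + K`, where the sum is over the primes `p ≤ Y^θ` for which the reduction modulo
`p` of `L_q = L_0 + q L_1 + ⋯ + q^(d-1) L_(d-1) + q^d r` does not have a full basis of rational
solutions. -/
theorem result (n d N : ℕ) (u : ℤ) (hn : 1 ≤ n) (hd : 1 ≤ d) (hN : 2 ≤ N)
    (hu : IsCoprime u (N : ℤ)) :
    2 / d * Real.log (N / 2) ≤ avgWeight n d N ∧
    ∀ θ η K : ℝ, 0 < θ → 0 ≤ η →
      max 1 (max ((n : ℝ) / d) ((N : ℝ) / d)) * η < avgWeight n d N * θ →
      avgWeight n d N * θ <
        (avgWeight n d N * θ - max 1 (max ((n : ℝ) / d) ((N : ℝ) / d)) * η) ^ 2 →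
      ∀ N₀ : ℕ, ∃ C : ℝ, ∀ (b : Fin d → Fin (n + 1) → ℤ[X]) (r : ℤ[X]) (s s' : ℚ),
        (∀ (k : Fin d) (i : Fin (n + 1)), X ^ (i : ℕ) ∣ X * b k i) →
        (∀ (k : Fin d) (i : Fin (n + 1)), (k : ℕ) ≠ 0 → (X * b k i).coeff i = 0) →
        ∑ i : Fin (n + 1), ((X * b ⟨0, hd⟩ i).coeff i : ℚ) * (descPochhammer ℚ i).eval s = 0 →
        ∑ i : Fin (n + 1), ((X * b ⟨0, hd⟩ i).coeff i : ℚ) * (descPochhammer ℚ i).eval s' = 0 →
        s - s' = (u : ℚ) / N →
        (∀ p : ℕ, p.Prime → N₀ < p → ¬ (p : ℤ) ∣ r.coeff 0 ∧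
          ¬ (p : ℤ) ∣ (X * b ⟨0, hd⟩ (Fin.last n)).coeff n ∧ ¬ p ∣ s.den) →
        ∀ Y : ℝ, 2 ≤ Y →
          (Set.ncard {q : ℤ | |(q : ℝ)| ≤ Y ∧
            badSum n (family b r q) (Y ^ θ) ≤ η * Real.log Y + K} : ℝ) ≤ C * Y ^ θ := by
  classical
  have hN0 : 0 < N := by omega
  have : NeZero N := ⟨by omega⟩
  have hd0 : (0 : ℝ) < d := by exact_mod_cast hd
  have hNr : (0 : ℝ) < N := by exact_mod_cast hN0
  refine ⟨avgWeight_ge hd hN, fun θ η K hθ hη h1 h2 N₀ => ?_⟩
  -- the weights
  have huu : IsUnit (((-u : ℤ)) : ZMod N) := by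
    rw [ZMod.coe_int_isUnit_iff_isCoprime]
    exact (IsCoprime.neg_left hu).symm
  obtain ⟨uu, huu⟩ := huu
  set wt : ℕ → ℝ := fun v => max 1 (max ((n : ℝ) / d) ((N : ℝ) / (d * (min v (N - v) : ℕ))))
    with hwt
  set g : (ZMod N)ˣ → ℝ := fun c => wt ((uu * c⁻¹ : (ZMod N)ˣ) : ZMod N).val with hg
  have hg0 : ∀ c, 0 ≤ g c := fun c => zero_le_one.trans (le_max_left _ _)
  have hcop : ∀ c : (ZMod N)ˣ, 1 ≤ (c : ZMod N).val ∧ (c : ZMod N).val < N := by
    intro c
    refine ⟨?_, ZMod.val_lt _⟩
    rcases Nat.eq_zero_or_pos (c : ZMod N).val with h0 | h0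
    · have := ZMod.val_coe_unit_coprime c
      rw [h0, Nat.coprime_zero_left] at this
      omega
    · exact h0
  have hgB : ∀ c, g c ≤ max 1 (max ((n : ℝ) / d) ((N : ℝ) / d)) := by
    intro c
    obtain ⟨e1, e2⟩ := hcop (uu * c⁻¹)
    refine max_le_max le_rfl (max_le_max le_rfl ?_)
    refine div_le_div_of_nonneg_left hNr.le hd0 ?_
    have e3 : 1 ≤ min ((uu * c⁻¹ : (ZMod N)ˣ) : ZMod N).val (N - ((uu * c⁻¹ : (ZMod N)ˣ) : ZMod N).val) :=
      le_min e1 (by omega)
    have e4 : (1 : ℝ) ≤ (min ((uu * c⁻¹ : (ZMod N)ˣ) : ZMod N).val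
      (N - ((uu * c⁻¹ : (ZMod N)ˣ) : ZMod N).val) : ℕ) := by exact_mod_cast e3
    nlinarith
  have hsum : avgWeight n d N = (∑ c, g c) / (N.totient : ℝ) := by
    unfold avgWeight
    congr 1
    have e1 : ∑ c, g c = ∑ v : (ZMod N)ˣ, wt (v : ZMod N).val :=
      Equiv.sum_comp ((Equiv.inv (ZMod N)ˣ).trans (Equiv.mulLeft uu))
        (fun v : (ZMod N)ˣ => wt (v : ZMod N).val)
    rw [e1]
    symm
    refine Finset.sum_nbij (fun v : (ZMod N)ˣ => (v : ZMod N).val) ?_ ?_ ?_ ?_
    · intro v _
      rw [Finset.mem_filter, Finset.mem_range]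
      exact ⟨ZMod.val_lt _, (ZMod.val_coe_unit_coprime v).symm⟩
    · intro v _ v' _ h
      exact Units.ext (ZMod.val_injective N h)
    · intro k hk
      rw [Finset.mem_coe, Finset.mem_filter, Finset.mem_range] at hk
      refine ⟨ZMod.unitOfCoprime k hk.2.symm, Finset.mem_coe.2 (Finset.mem_univ _), ?_⟩
      simp only [ZMod.coe_unitOfCoprime]
      rw [ZMod.val_natCast, Nat.mod_eq_of_lt hk.1]
    · intro v _; rfl
  obtain ⟨C, hC⟩ := main_sieve g hg0 hgB hsum u.natAbs (max N₀ (max u.natAbs N)) K hθ hη h1 h2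
  refine ⟨C, fun b r s s' hreg hb0 hs hs' hss hN₀ Y hY => ?_⟩
  -- the quotients
  choose a hab using hreg
  have hcoef : ∀ (k : Fin d) (i : Fin (n + 1)), (X * b k i).coeff i = (a k i).coeff 0 := by
    intro k i
    rw [hab k i]
    have := coeff_X_pow_mul (a k i) (i : ℕ) 0
    rwa [zero_add] at this
  have hn' : (X * b ⟨0, hd⟩ (Fin.last n)).coeff n = (a ⟨0, hd⟩ (Fin.last n)).coeff 0 :=
    hcoef ⟨0, hd⟩ (Fin.last n)
  simp only [hcoef] at hb0 hs hs'
  refine hC (fun p q => Full n (family b r q) p) ?_ Y hY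
  intro p hp hpN c hpc T hT
  have hpF : Fact p.Prime := ⟨hp⟩
  have hp1 : N₀ < p := lt_of_le_of_lt (le_max_left _ _) hpN
  have hp2 : u.natAbs < p := lt_of_le_of_lt ((le_max_left _ _).trans (le_max_right _ _)) hpN
  have hp3 : N < p := lt_of_le_of_lt ((le_max_right _ _).trans (le_max_right _ _)) hpN
  obtain ⟨q1, q2, q3⟩ := hN₀ p hp hp1
  rw [hn'] at q2
  have hpr : (0 : ℝ) < p := by exact_mod_cast hp.pos
  -- the number of the classes
  have b1 : T.card ≤ p := by
    have := Finset.card_le_univ T
    rwa [ZMod.card] at this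
  have b2 : T.card * n ≤ d * p := by
    refine Pool.Agent.TH924.PC.classes_le hd b r ?_ T ?_
    · intro h0
      apply q1
      have h1 := congrArg (fun P => P.coeff 0) h0
      simp only [coeff_map, eq_intCast, coeff_zero] at h1
      exact (ZMod.intCast_zmod_eq_zero_iff_dvd _ _).1 h1
    · intro t ht
      obtain ⟨q, hq, hF⟩ := hT t ht
      obtain ⟨_, hF'⟩ := hF
      exact ⟨q, hq, hF'⟩
  obtain ⟨b3, b4, b5⟩ := local_bound hd hn hN hu b a r hab hb0 q1 q2 hs hs' hss q3 hp2 hp3 T
    (fun t ht => by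
      obtain ⟨q, hq, hF⟩ := hT t ht
      obtain ⟨_, hF'⟩ := hF
      exact ⟨q, hq, hF'⟩)
  have hjj : ((uu * c⁻¹ : (ZMod N)ˣ) : ZMod N).val = jj N u p := by
    unfold jj
    rw [Units.val_mul, huu, hpc, ZMod.inv_coe_unit]
  have hgc : g c = wt (jj N u p) := by rw [hg]; simp only [hjj]
  set m := min (jj N u p) (N - jj N u p) with hm
  have hm1 : 1 ≤ m := le_min b3 (by omega)
  have hmr : (1 : ℝ) ≤ m := by exact_mod_cast hm1
  have hT0 : (0 : ℝ) ≤ T.card := Nat.cast_nonneg _
  have hU : (0 : ℝ) ≤ u.natAbs := Nat.cast_nonneg _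
  rw [hgc, hwt]
  show (T.card : ℝ) * max 1 (max ((n : ℝ) / d) ((N : ℝ) / (d * (m : ℕ)))) ≤ p + u.natAbs
  rw [mul_max_of_nonneg _ _ hT0, mul_max_of_nonneg _ _ hT0]
  refine max_le ?_ (max_le ?_ ?_)
  · have : (T.card : ℝ) ≤ p := by exact_mod_cast b1
    linarith
  · have h3 : (T.card : ℝ) * n ≤ d * p := by exact_mod_cast b2
    have h4 : (T.card : ℝ) * (n / d) ≤ p := by
      rw [mul_div_assoc', div_le_iff₀ hd0]
      linarith
    linarith
  · have h3 : (T.card : ℝ) * N ≤ d * (u.natAbs + p * m) := by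
      have h4 : ((T.card : ℤ) : ℝ) * N ≤ d * ((|u| : ℤ) + p * ((m : ℕ) : ℤ)) := by exact_mod_cast b5
      have h5 : ((|u| : ℤ) : ℝ) = u.natAbs := by
        rw [Int.abs_eq_natAbs, Int.cast_natCast]
      rw [h5] at h4
      simp only [Int.cast_natCast] at h4
      exact h4
    have hdm : (0 : ℝ) < d * m := by positivity
    rw [mul_div_assoc', div_le_iff₀ hdm]
    refine h3.trans ?_
    have h4 : (u.natAbs : ℝ) ≤ u.natAbs * m := by nlinarith
    nlinarith

end Pool.Agent.Results.MP_aa40d3_nt.AccessoryParametersResonance
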