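import Pool.Agent.Helper84.TY.Type
import Pool.Agent.Helper84.PC.Link

set_option autoImplicit false

open Finset Polynomial Pool.Agent.W432.WB Pool.Agent.W432.HK Pool.Agent.Y227.SO
open Pool.Agent.R340.SY Pool.Agent.Helper84.PC Pool.Agent.Helper84.TY

/-!
# Irreducible operators of any order with rough projective orders and of nonzero type

Let `L` be an irreducible Fuchsian operator of order `n ≥ 2` with rational exponents `e x l`, any number
of singular points and arbitrary accessory parameters, with `s` points at which the exponents are not
all congruent modulo the integers. Assume that the differences of the exponents at these points have
rough denominators: without prime factors up to `(n (n - 1) s) ^ ((n - 1) s)`, for example one large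
prime number for all the points. Then for every point `x` there is a number `ε x`, unique modulo the
integers, such that the `e x l - ε x` have denominators prime to `n` and their sum is an integer, and by
the relation of Fuchs `n` times the sum of the `ε x` is an integer. Let the type of `L` be the sum of the
`ε x` modulo the integers, an element of `(1 / n) ℤ / ℤ`. (If the local monodromies are semisimple, then
their classes modulo scalars have orders prime to `n`, and so have unique liftings to `SL_n` with the same
orders; the type corresponds to the product of these liftings for the projective monodromy
representation, an element of the center of `SL_n`.) For `n = 2` and differences `D x / q`, `q` odd, the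
type is half of `m - 1 + ∑ D x`, `m` the number of the finite singular points.

**Grothendieck's conjecture is proved for all these operators of nonzero type**, the reductions having no
full basis of solutions for all large primes in some residue class. More generally, if the points are
divided into groups (colours) such that the denominators for different groups are coprime, the bound for
the prime factors of the denominators is `(n (n - 1) s) ^ ((n - 1) k)` for a group of `k` points; so it is
enough that they exceed `(n (n - 1) s) ^ (n - 1)` if the projective orders are pairwise coprime.

Proof. If there is no such class of primes, then the conjugate exponents are the weights of stable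
parabolic bundles of parabolic degree zero (a starting result), and the inequalities for line subbundles
hold for all conjugates: if `y x l` are numbers congruent to the `a e x l` modulo the integers, whose sum
is congruent to `j` modulo `n`, `0 < j < n`, then the sum of the `y x l - min y x` is greater than `j`. By
Dirichlet's theorem there is a multiplier smaller than all the prime factors of the denominators, hence
prime to them, for which all the `a (e x l - ε x)` are close to integers; then one can take
`y x l = a (ε x) + (a small number)`, with `j / n` congruent to `a` times the type.
-/

namespace Pool.Agent.Results.MP_aa40d3_nt.NonzeroType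

/-- Let `L = ∑ b k ∂ ^ k` be an operator of order `n ≥ 2` with integral polynomial coefficients,
Fuchsian, with finite singular points among the distinct algebraic numbers `α j`, `j = 1, …, m`, with
the rational exponents `e x l` at the `m + 1` points `x` (the finite points `some j` and infinity,
`none`), and irreducible over the algebraic numbers. Let `ε x` be rational numbers such that
`∑ l, (e x l - ε x)` is an integer for every point `x`, whereas the sum of all the `ε x` is not an
integer. Let `T` be a set of points such that the `e x l - ε x` are integers for `x` not in `T`. Let the
points of `T` be coloured such that the denominators of `e x l - ε x` and of `e y l' - ε y` are coprime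
if `x` and `y` have different colours, and assume that for `x` in `T` the prime factors of the
denominators of the `e x l - ε x` are greater than `(n (n - 1) |T|) ^ ((n - 1) k)`, where `k` is the
number of the points in `T` of the same colour as `x`.

Then for every common denominator `N` of the exponents there is an `a` prime to `N` such that for all
large primes `p` with `a p = -1` modulo `N` the reduction of `L` modulo `p` does not have a full basis of
rational solutions; in particular the open implication of the conjecture holds for `L`. -/
theorem result {m n : ℕ} (hm : 1 ≤ m) (hn : 2 ≤ n) (b : Fin (n + 1) → ℤ[X])
    (α : Fin m → AlgebraicClosure ℚ) (lam : Fin m → Fin n → ℚ) (phi : Fin n → ℚ)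
    (hF : FuchsianWith b α lam phi) (hirr : ¬ Reducible b) (e : Option (Fin m) → Fin n → ℚ)
    (he : ∀ x l, e x l = expo lam phi x l) (ε : Option (Fin m) → ℚ)
    (hε : ∀ x, ∃ w : ℤ, ∑ l, (e x l - ε x) = w) (hsum : ∀ w : ℤ, ∑ x, ε x ≠ w)
    (T : Finset (Option (Fin m))) (hT : ∀ x, x ∉ T → ∀ l, (e x l - ε x).den = 1)
    (col : Option (Fin m) → ℕ)
    (hcol : ∀ x ∈ T, ∀ y ∈ T, col x ≠ col y → ∀ l l',
      Nat.Coprime (e x l - ε x).den (e y l' - ε y).den)
    (hrough : ∀ x ∈ T, ∀ l, ∀ p : ℕ, p.Prime → p ∣ (e x l - ε x).den →
      (n * (n - 1) * T.card) ^ ((n - 1) * (T.filter fun y => col y = col x).card) < p) :
    (∀ N, CommonDen lam phi N → BadClass b N) ∧ (Cond b → FullAlg b) := by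
  have he' : e = expo lam phi := funext fun x => funext fun l => he x l
  subst he'
  obtain ⟨n, rfl⟩ : ∃ k, n = k + 1 := ⟨n - 1, by omega⟩
  rw [Nat.add_sub_cancel] at hrough
  refine conj_of_bad fun N hN => ?_
  by_contra hbad
  obtain ⟨⟨F, hFs⟩, G⟩ := ineq_of_not_bad hm hn hF hirr hN hbad
  exact nonzero_type hN.1 (expo_int hN) hFs G none (by omega) ε hε hsum T hT col hcol hrough

end Pool.Agent.Results.MP_aa40d3_nt.NonzeroType
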