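import Pool.Agent.Helper84.P2.Private
import Pool.Agent.Helper84.P2.Three
import Pool.Agent.Helper84.PC.Link

set_option autoImplicit false

open Finset Polynomial Pool.Agent.W432.WB Pool.Agent.W432.HK Pool.Agent.Y227.SO
open Pool.Agent.R340.SY Pool.Agent.Helper84.PC Pool.Agent.Helper84.P2

/-!
# Irreducible operators of order two with private denominators

Let `L` be an irreducible Fuchsian operator of order two with rational exponents, any number of singular
points and arbitrary accessory parameters, and let `δ x` be the difference of the exponents at the point
`x` and `d x` its denominator. The point `x` is called private if `d x` is prime to the denominators of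
the differences at all other points. Grothendieck's conjecture is proved for `L`, the reductions having
no full basis of solutions for all large primes in some residue class, if there are private points (a set
`P` of them is chosen) with a small sum of the `1 / d x` (to which `1 / d z`, `z` in `P`, is added if all
the `d x` are odd) and if the distances of the multiples `c (δ y)` of the other differences from the
nearest integers have a small sum for one `c` prime to their denominators: both sums together must not
exceed one. Nothing is assumed on the exponents themselves, whose denominators may be arbitrary. For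
instance the conjecture holds for `L` in the following cases.

* The denominators of the nonintegral differences are pairwise coprime, and their inverses and the
  inverse of the largest one have a sum of at most one (for an even denominator the last term can be
  omitted; this excludes the icosahedral triple `2, 3, 5`, but not `2, 3, 7`).
* There are four points with nonintegral differences, three of them with arbitrary denominators greater
  than three and the fourth one with a denominator `d ≥ 20` prime to the three other ones.

The second case is an example of the general result for at most three points with nonintegral differences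
outside of `P`. Here the existence of `c` follows from the exact value of the average over the multiples by
units of the distance of a rational number from the nearest integer; it is at most `3 / 10` for all
denominators greater than three.

Proof. If there is no such class of primes, then the conjugate exponents are the weights of stable
parabolic bundles of parabolic degree zero (a starting result), and the inequalities for line subbundles
hold for all conjugates. In order two, for a multiplier `a` and integers `v x` such that `∑ v x` plus `a`
times the sum of all exponents is odd, the choice of suitable base points shows that the sum of all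
`|a δ x - v x|` is greater than one. By the Chinese remainder theorem `a` can be chosen to be `c` modulo the
other denominators and with `a δ x = 1 / d x` modulo one for `x` in `P`. The parity can be changed: if some
`d x`, `x` in `P`, is even, then replacing `a` by `a` plus the product of all denominators changes it, and
otherwise it is changed by `a (δ z) = 2 / d z` instead of `1 / d z` modulo one.
-/

namespace Pool.Agent.Results.MP_aa40d3_nt.PrivateDenominators

/-- Let `L = ∑ b k ∂ ^ k` be an operator of order two with integral polynomial coefficients, Fuchsian,
with finite singular points among the distinct algebraic numbers `α j`, `j = 1, …, m`, `m ≥ 1`, with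
rational exponents, and irreducible over the algebraic numbers, and let `δ x` be the difference of the two
exponents at the point `x` (a finite point `some j` or infinity, `none`). Let `P` be a set of points such
that the denominator of `δ x` is prime to that of `δ y` for all `x` in `P` and all `y` different from `x`,
let `z` be in `P`, and let `ε` be the inverse of the denominator of `δ z`, or let `ε = 0` if some `δ x`
with `x` in `P` has an even denominator. Let `S` be `ε` plus the sum of the inverses of the denominators
of the `δ x`, `x` in `P`. Assume that one of the following holds: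

(1) for some `c` prime to the denominators of all the `δ y`, `y` not in `P`, the sum of the distances of
the `c (δ y)`, `y` not in `P`, from the nearest integers plus `S` is at most one;

(2) at most three of the `δ y`, `y` not in `P`, are not integers, they have denominators at least `4`, and
`S` is at most `1 / 10`;

(3) at most two of the `δ y`, `y` not in `P`, are not integers, they have denominators at least `3`, and
`S` is at most `1 / 3`.

Then for every common denominator `N` of the exponents there is an `a` prime to `N` such that for all
large primes `p` with `a p = -1` modulo `N` the reduction of `L` modulo `p` does not have a full basis of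
rational solutions; in particular the open implication of the conjecture holds for `L`. -/
theorem result {m : ℕ} (hm : 1 ≤ m) (b : Fin 3 → ℤ[X]) (α : Fin m → AlgebraicClosure ℚ)
    (lam : Fin m → Fin 2 → ℚ) (phi : Fin 2 → ℚ) (hF : FuchsianWith b α lam phi)
    (hirr : ¬ Reducible b) (δ : Option (Fin m) → ℚ)
    (hδ : ∀ x, δ x = expo lam phi x 1 - expo lam phi x 0) (P : Finset (Option (Fin m)))
    (hP : ∀ x ∈ P, ∀ y, y ≠ x → Nat.Coprime (δ x).den (δ y).den) (z : Option (Fin m)) (hz : z ∈ P)
    (ε : ℚ) (hε : ε = 1 / ((δ z).den : ℚ) ∨ (ε = 0 ∧ ∃ x ∈ P, Even (δ x).den)) (S : ℚ)
    (hS : S = ∑ x ∈ P, 1 / ((δ x).den : ℚ) + ε)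
    (h : (∃ c : ℤ, (∀ y, y ∉ P → IsCoprime c ((δ y).den : ℤ)) ∧
        ∑ y ∈ univ \ P, |(c : ℚ) * δ y - round ((c : ℚ) * δ y)| + S ≤ 1) ∨
      (((univ \ P).filter fun y => (δ y).den ≠ 1).card ≤ 3 ∧
        (∀ y, y ∉ P → (δ y).den = 1 ∨ 4 ≤ (δ y).den) ∧ S ≤ 1 / 10) ∨
      (((univ \ P).filter fun y => (δ y).den ≠ 1).card ≤ 2 ∧
        (∀ y, y ∉ P → (δ y).den = 1 ∨ 3 ≤ (δ y).den) ∧ S ≤ 1 / 3)) :
    (∀ N, CommonDen lam phi N → BadClass b N) ∧ (Cond b → FullAlg b) := by
  classical
  have hc : ∃ c : ℤ, (∀ y, y ∉ P → IsCoprime c ((δ y).den : ℤ)) ∧
      ∑ y ∈ univ \ P, |(c : ℚ) * δ y - round ((c : ℚ) * δ y)| + S ≤ 1 := by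
    have gen : ∀ (k : ℕ) (B : ℚ), 0 ≤ B → ((univ \ P).filter fun y => (δ y).den ≠ 1).card ≤ k →
        (∀ y, y ∉ P → (δ y).den = 1 ∨ (msum (δ y).den : ℚ) ≤ B * ((δ y).den * (δ y).den.totient)) →
        S ≤ 1 - k * B →
        ∃ c : ℤ, (∀ y, y ∉ P → IsCoprime c ((δ y).den : ℤ)) ∧
          ∑ y ∈ univ \ P, |(c : ℚ) * δ y - round ((c : ℚ) * δ y)| + S ≤ 1 := by
      intro k B hB hk hb hS1
      obtain ⟨c, hc1, hc2⟩ := exists_mult (univ \ P) δ (fun y => if (δ y).den ≠ 1 then B else 0)
        (k * B) (fun y hy => by
          rcases hb y (mem_sdiff.1 hy).2 with h1 | h1
          · rw [if_neg (not_not.2 h1), h1, msum_one]; simp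
          · split_ifs with h2
            · exact h1
            · rw [not_not] at h2
              rw [h2, msum_one]; simp) (by
          rw [← sum_filter, sum_const, nsmul_eq_mul]
          have : (((((univ \ P).filter fun y => (δ y).den ≠ 1).card : ℕ)) : ℚ) ≤ k := by exact_mod_cast hk
          nlinarith)
      exact ⟨c, fun y hy => hc1 y (mem_sdiff.2 ⟨mem_univ y, hy⟩), by linarith⟩
    rcases h with h | ⟨h1, h2, h3⟩ | ⟨h1, h2, h3⟩
    · exact h
    · refine gen 3 (3 / 10) (by norm_num) h1 (fun y hy => (h2 y hy).imp_right fun h4 => ?_)
        (by push_cast; linarith)
      have h5 := msum_le _ h4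
      have h6 : (10 : ℚ) * msum (δ y).den ≤ 3 * ((δ y).den * (δ y).den.totient) := by exact_mod_cast h5
      linarith
    · refine gen 2 (1 / 3) (by norm_num) h1 (fun y hy => (h2 y hy).imp_right fun h4 => ?_)
        (by push_cast; linarith)
      have h5 := msum_le' _ h4
      have h6 : (3 : ℚ) * msum (δ y).den ≤ (δ y).den * (δ y).den.totient := by exact_mod_cast h5
      linarith
  obtain ⟨c, hc1, hc2⟩ := hc
  refine conj_of_bad fun N hN => ?_
  by_contra hbad
  obtain ⟨⟨F, hFs⟩, G⟩ := ineq_of_not_bad hm (le_refl 2) hF hirr hN hbad
  have hb := private_bound hN.1 hFs G δ hδ P z hz hP c hc1 (fun y => round ((c : ℚ) * δ y))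
  have hε' : (if ∃ x ∈ P, Even (δ x).den then 0 else 1 / ((δ z).den : ℚ)) ≤ ε := by
    have h0 : (0 : ℚ) ≤ 1 / ((δ z).den : ℚ) := by positivity
    rcases hε with h1 | ⟨h1, h2⟩
    · rw [h1]; split_ifs
      · exact h0
      · exact le_rfl
    · rw [h1, if_pos h2]
  rw [hS] at hc2
  have hb' : 1 < ∑ y ∈ univ \ P, |(c : ℚ) * δ y - round ((c : ℚ) * δ y)| +
      ∑ x ∈ P, 1 / ((δ x).den : ℚ) + (if ∃ x ∈ P, Even (δ x).den then 0 else 1 / ((δ z).den : ℚ)) := by
    convert hb using 3
  linarith

end Pool.Agent.Results.MP_aa40d3_nt.PrivateDenominators
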