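import Pool.Agent.Helper84.PC.Link
import Pool.Agent.Helper84.TY.Groups

set_option autoImplicit false

open Finset Polynomial Pool.Agent.W432.WB Pool.Agent.W432.HK Pool.Agent.Y227.SO
open Pool.Agent.R340.SY Pool.Agent.Helper84.PC

/-!
# Irreducible operators of any order with a point of private prime order

Let `L` be an irreducible Fuchsian operator of order `n ≥ 2` with rational exponents, any number of
singular points and arbitrary accessory parameters. The projective order of `L` at a singular point is
the common denominator of the differences of the exponents there (the order of the local monodromy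
modulo scalars, if this is semisimple).

Grothendieck's conjecture is proved for `L`, the reductions having no full basis of solutions for all
large primes in some residue class, if one point `z` has a prime projective order `p > n` which does not
divide the projective orders at the other points, and if the conjugates of the exponents at the other
points are not too far from scalars. At the points `x` of a set `S` of further points nothing is assumed
on the exponents, only that the projective orders there are rough, that is, without small prime factors;
the points of `S` are coloured so that the projective orders at points of different colours are coprime.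
Such a point only costs `2 n / Q`, if the prime factors of its order are larger than
`Q ^ ((n - 1) k)`, where `k` is the number of points with the same colour. At the remaining points the
cost is the sum of the distances
of the conjugates by one common multiplier `a` from one of them, measured in the positive direction on
the circle. The sum of the costs has to be less than `μ / 2 - n / p`, where `μ ≥ 1` is a lower bound for
the multiplicities modulo `ℤ` of two exponents at `z` which are not congruent.

For instance (`S` consisting of all other points with nonintegral differences, `Q = 8 n s`, `a = 1`),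
**the conjecture holds for `L` if the projective orders at the `s` singular points where they are not
one have only prime factors larger than `(8 n s) ^ ((n - 1) s)` and one of them is a prime which does not
divide the others**, and also if the `s` orders are powers of distinct primes larger than
`(8 n s) ^ (n - 1)`, one of them the prime itself; there may be any number of further
singular points with integral differences of exponents, and the exponents themselves may have arbitrary
denominators.

Proof. If there is no such class of primes, then all conjugates of the exponents are the weights of
stable parabolic bundles of parabolic degree zero (a starting result), which gives the inequality for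
line subbundles `n ≤ ∑ fract (a λ - β)` for all `a` and all base points `β` with integral sum. The
multiplier `a` is fixed modulo the orders at the points `x ≠ z` (for `x` in `S` by the theorem of
Dirichlet on simultaneous approximation, for every colour separately; the multiplier found is smaller
than all prime factors of the orders and so prime to them) and varied modulo `p` by the Chinese
remainder theorem; by the
relation of Fuchs all the sums `λ(z, l) + ∑ λ(x, κ x)` are in `c_l / p + g + ℤ` with one `g` with a
denominator prime to `p` (here `p > n` is used), and `c_l` is prime to `p` for one of the two exponents.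
The inequalities for two multipliers `a`, `a'` with `a c = -a' c = t` modulo `p` are added; for a
suitable `t` (`1` or `(p - 1) / 2`, according to the fractional part of `a g`) the sum is at most
`2 n - μ + 2 ∑ (distances) + 2 n / p`.
-/

namespace Pool.Agent.Results.MP_aa40d3_nt.PrivatePrimeOrder

/-- Let `L = ∑ b k ∂ ^ k` be an operator of order `n ≥ 2` with integral polynomial coefficients,
Fuchsian, with finite singular points among the distinct algebraic numbers `α j`, `j = 1, …, m`, with
the rational exponents `e x l` at the `m + 1` points `x` (the finite points `some j` and infinity,
`none`), and irreducible over the algebraic numbers. For every point `x` let `D x` be a common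
denominator of the differences of the exponents at `x`. Let `z` be a point such that `D z` is a prime
number larger than `n` which does not divide the other `D x`. Let `S` be a set of other points, coloured
so that `D x` and `D y` are coprime if `x` and `y` are points of `S` of different colours or if `x` is in
`S` and `y` is neither in `S` nor `z`, and such that all prime factors of `D x`, `x` in `S`, are larger
than the `(n - 1) k`-th power of `Q c ≥ 1`, where `c` is the colour of `x` and `k` the number of points of
`S` with this colour. Let `k₁`, `k₂` be indices of exponents at `z` which are not congruent modulo `ℤ`,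
each of them congruent to at least `μ` exponents at `z`. Let `a` be prime to the `D x` of the points
outside of `{z} ∪ S`, and let `κ x` be the index of an exponent for every point `x`. Assume that the sum
of the fractional parts of all the `a (e x l - e x (κ x))`, `x` not in `{z} ∪ S`, plus the sum over the
points of `S` of `2 n / Q c`, `c` the colour of the point, plus `n / D z`, is less than `μ / 2`.

Then for every common denominator `N` of the exponents there is an `a` prime to `N` such that for all
large primes `p` with `a p = -1` modulo `N` the reduction of `L` modulo `p` does not have a full basis of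
rational solutions; in particular the open implication of the conjecture holds for `L`. -/
theorem result {m n : ℕ} (hm : 1 ≤ m) (hn : 2 ≤ n) (b : Fin (n + 1) → ℤ[X])
    (α : Fin m → AlgebraicClosure ℚ) (lam : Fin m → Fin n → ℚ) (phi : Fin n → ℚ)
    (hF : FuchsianWith b α lam phi) (hirr : ¬ Reducible b) (e : Option (Fin m) → Fin n → ℚ)
    (he : ∀ x l, e x l = expo lam phi x l)
    (D : Option (Fin m) → ℕ) (hD0 : ∀ x, 0 < D x)
    (hD : ∀ x l l', ∃ w : ℤ, (D x : ℚ) * (e x l - e x l') = w)
    (z : Option (Fin m)) (hz : (D z).Prime) (hzn : n < D z) (hzD : ∀ x, x ≠ z → ¬ D z ∣ D x)
    (S : Finset (Option (Fin m))) (hzS : z ∉ S) (col : Option (Fin m) → ℕ)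
    (hcol : ∀ x ∈ S, ∀ y ∈ S, col x ≠ col y → Nat.Coprime (D x) (D y))
    (hSD : ∀ x ∈ S, ∀ y, y ∉ S → y ≠ z → Nat.Coprime (D x) (D y))
    (Q : ℕ → ℕ) (hQ : ∀ c, 1 ≤ Q c)
    (hrough : ∀ x ∈ S, ∀ p : ℕ, p.Prime → p ∣ D x →
      Q (col x) ^ ((n - 1) * (S.filter fun y => col y = col x).card) < p)
    (k₁ k₂ : Fin n) (hk : (e z k₁ - e z k₂).den ≠ 1) (μ : ℕ)
    (h1 : μ ≤ (univ.filter fun l => (e z l - e z k₁).den = 1).card)
    (h2 : μ ≤ (univ.filter fun l => (e z l - e z k₂).den = 1).card)
    (κ : Option (Fin m) → Fin n) (a : ℤ)
    (ha : ∀ x, x ≠ z → x ∉ S → IsCoprime a (D x : ℤ))
    (hlt : ∑ x ∈ univ \ insert z S, ∑ l, Int.fract ((a : ℚ) * (e x l - e x (κ x))) +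
      ∑ x ∈ S, 2 * n / (Q (col x) : ℚ) + n / D z < μ / 2) :
    (∀ N, CommonDen lam phi N → BadClass b N) ∧ (Cond b → FullAlg b) := by
  have he' : e = expo lam phi := funext fun x => funext fun l => he x l
  subst he'
  obtain ⟨n, rfl⟩ : ∃ k, n = k + 1 := ⟨n - 1, by omega⟩
  have hden : ∀ x l l', (expo lam phi x l - expo lam phi x l').den ∣ D x := by
    intro x l l'
    obtain ⟨w, hw⟩ := hD x l l'
    have hD' : ((D x : ℕ) : ℚ) ≠ 0 := by exact_mod_cast (hD0 x).ne'
    have h : expo lam phi x l - expo lam phi x l' = (w : ℚ) / ((D x : ℤ) : ℚ) := by
      rw [Int.cast_natCast, eq_div_iff hD', mul_comm]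
      exact hw
    have h' := Rat.den_dvd w (D x : ℤ)
    rw [← Rat.divInt_eq_div] at h
    rw [h]
    exact_mod_cast h'
  refine conj_of_bad fun N hN => ?_
  by_contra hbad
  obtain ⟨⟨F, hFs⟩, G⟩ := ineq_of_not_bad hm hn hF hirr hN hbad
  set M : ℕ := ∏ x ∈ univ \ insert z S, D x with hM
  have hM0 : 0 < M := prod_pos fun x _ => hD0 x
  have := Pool.Agent.Helper84.TY.groups hN.1 (expo_int hN) hFs G (by omega) z S hzS hz hzn (hD z)
    (fun x hx l h => hzD x (fun h' => hzS (h' ▸ hx)) (h.trans (hden x l 0))) col
    (fun x hx y hy hc l l' => Nat.Coprime.coprime_dvd_left (hden x l 0)
      (Nat.Coprime.coprime_dvd_right (hden y l' 0) (hcol x hx y hy hc))) hQ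
    (fun x hx l q hq hd => by
      have := hrough x hx q hq (hd.trans (hden x l 0))
      rwa [Nat.add_sub_cancel] at this) hk h1 h2 hM0
    (fun h => by
      obtain ⟨x, hx, hdv⟩ := (Prime.dvd_finsetProd_iff hz.prime _).1 h
      rw [mem_sdiff, mem_insert, not_or] at hx
      exact hzD x hx.2.1 hdv)
    (fun x hx l => Nat.Coprime.prod_right fun y hy => by
      rw [mem_sdiff, mem_insert, not_or] at hy
      exact Nat.Coprime.coprime_dvd_left (hden x l 0) (hSD x hx y hy.2.2 hy.2.1))
    (fun x hxz hxS l l' => by
      obtain ⟨w, hw⟩ := hD x l l'
      obtain ⟨c, hc⟩ : D x ∣ M := dvd_prod_of_mem D
        (mem_sdiff.2 ⟨mem_univ _, by rw [mem_insert, not_or]; exact ⟨hxz, hxS⟩⟩)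
      refine ⟨c * w, ?_⟩
      rw [hc]
      push_cast
      rw [← hw]
      ring) κ a
    (by
      rw [hM]
      push_cast
      refine IsCoprime.prod_right fun x hx => ?_
      rw [mem_sdiff, mem_insert, not_or] at hx
      exact ha x hx.2.1 hx.2.2)
  push_cast at hlt
  exact absurd hlt (not_lt.2 this)

end Pool.Agent.Results.MP_aa40d3_nt.PrivatePrimeOrder
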